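import Pool.Agent.H2.Root

set_option autoImplicit false

namespace Pool.Agent.Results.MP_f3b8e9_an.NotComplete

open Complex Set Pool.Agent.H2.Root
open scoped Real

/-- the domain -/
def Om : Set ℂ := {z | -1 < z.im ∧ |z.re - π / 2| < 2 + z.im / 4}

/-- the differential polynomial `d²/dz²` -/
noncomputable def ell (f : ℂ → ℂ) : ℂ → ℂ := deriv (deriv f)

/-- the boundary conditions `f(0) = f(π) = 0` -/
def D1 (f : ℂ → ℂ) : Prop := f 0 = 0 ∧ f π = 0

/-- root vectors -/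
def Root : Set (ℂ → ℂ) := {f | DifferentiableOn ℂ f Om ∧ (∃ z ∈ Om, f z ≠ 0) ∧
  ∃ (c : ℂ) (m : ℕ), 1 ≤ m ∧ (∀ q < m, D1 (ell^[q] f)) ∧
    ∀ z ∈ Om, (fun g w => ell g w - c * g w)^[m] f z = 0}

/-- closure of the span of the root vectors (locally uniform convergence) -/
def Cl : Set (ℂ → ℂ) := {f | DifferentiableOn ℂ f Om ∧ ∀ K ⊆ Om, IsCompact K → ∀ ε > 0,
  ∃ g ∈ Submodule.span ℂ Root, ∀ z ∈ K, ‖f z - g z‖ < ε}

/-- common domain of all powers -/
def Dinf : Set (ℂ → ℂ) := {f | DifferentiableOn ℂ f Om ∧ ∀ q, D1 (ell^[q] f)}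

theorem Om_open : IsOpen Om :=
  (isOpen_lt continuous_const continuous_im).inter 
    (isOpen_lt (f := fun z : ℂ => |z.re - π / 2|) (g := fun z : ℂ => 2 + z.im / 4)
      (by fun_prop) (by fun_prop))

theorem Om_convex : Convex ℝ Om := by
  have : Om = {z : ℂ | -1 < z.im} ∩ ({z : ℂ | z.re - z.im / 4 < 2 + π / 2} ∩
      {z : ℂ | π / 2 - 2 < z.re + z.im / 4}) := by
    ext z; simp only [Om, mem_setOf_eq, mem_inter_iff, abs_lt]
    constructor <;> rintro ⟨a, b, c⟩ <;> refine ⟨a, ?_, ?_⟩ <;> linarith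
  rw [this]
  refine (convex_halfSpace_im_gt _).inter (Convex.inter (convex_halfSpace_lt ⟨?_, ?_⟩ _)
    (convex_halfSpace_gt ⟨?_, ?_⟩ _)) <;> intros <;> simp <;> ring

theorem mem_Om {z : ℂ} (h1 : 0 ≤ z.im) (h2 : 0 ≤ z.re) (h3 : z.re ≤ π) : z ∈ Om := by
  have := Real.pi_lt_four
  exact ⟨by linarith, abs_lt.2 ⟨by linarith, by linarith⟩⟩

theorem good (g : ℂ → ℂ) (hg : g ∈ Submodule.span ℂ Root) : ∃ F, Differentiable ℂ F ∧
    EqOn g F Om ∧ (∀ z, F (2 * 0 - z) = -F z) ∧ ∀ z, F (2 * π - z) = -F z := by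
  induction hg using Submodule.span_induction with
  | mem f hf =>
    obtain ⟨hd, -, c, m, -, h1, h2⟩ := hf
    obtain ⟨F, hF, e⟩ := extend Om_open Om_convex.isPreconnected c m f hd h2
    have hT : ∀ z, (T c)^[m] F z = 0 := by
      have d : ∀ (m : ℕ) (F : ℂ → ℂ), Differentiable ℂ F → Differentiable ℂ ((T c)^[m] F) := by
        intro m
        induction m with
        | zero => exact fun F hF => hF
        | succ m ih => exact fun F hF => ih _ ((l2_diff hF).sub (hF.const_mul c))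
      have h0 : (0 : ℂ) ∈ Om := mem_Om (by simp) (by simp) (by simp [Real.pi_pos.le])
      have := AnalyticOnNhd.eq_of_eventuallyEq (f := (T c)^[m] F) (g := fun _ => 0) (z₀ := 0)
        (fun z _ => (d m F hF).analyticAt z) analyticOnNhd_const (by
          filter_upwards [Om_open.mem_nhds h0] with z hz
          rw [← T_eqOn Om_open c e m hz]; exact h2 z hz)
      exact congrFun this
    refine ⟨F, hF, e, odd_of c 0 m F hF hT fun q hq => ?_, odd_of c π m F hF hT fun q hq => ?_⟩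
    · rw [← l2_eqOn Om_open e q (mem_Om (by simp) (by simp) (by simp [Real.pi_pos.le]))]
      exact (h1 q hq).1
    · rw [← l2_eqOn Om_open e q (mem_Om (by simp) (by simp [Real.pi_pos.le]) (by simp))]
      exact (h1 q hq).2
  | zero => exact ⟨0, differentiable_zero, fun _ _ => rfl, by simp, by simp⟩
  | add f g _ _ hf hg =>
    obtain ⟨F, a1, a2, a3, a4⟩ := hf
    obtain ⟨G, b1, b2, b3, b4⟩ := hg
    refine ⟨F + G, a1.add b1, fun z hz => by simp [a2 hz, b2 hz], fun z => ?_, fun z => ?_⟩ <;>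
      simp only [Pi.add_apply, a3, a4, b3, b4] <;> ring
  | smul c f _ hf =>
    obtain ⟨F, a1, a2, a3, a4⟩ := hf
    refine ⟨c • F, a1.const_smul c, fun z hz => by simp [a2 hz], fun z => ?_, fun z => ?_⟩ <;>
      simp only [Pi.smul_apply, a3, a4, smul_neg]

theorem result : IsOpen Om ∧ Convex ℝ Om ∧ (0 : ℂ) ∈ Om ∧ (π : ℂ) ∈ Om ∧
    (∃ (c : ℂ) (y1 y2 : ℂ → ℂ), DifferentiableOn ℂ y1 Om ∧ DifferentiableOn ℂ y2 Om ∧
      (∀ z ∈ Om, ell y1 z - c * y1 z = 0 ∧ ell y2 z - c * y2 z = 0) ∧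
      y1 0 = 1 ∧ deriv y1 0 = 0 ∧ y2 0 = 0 ∧ deriv y2 0 = 1 ∧
      Matrix.det !![y1 0, y1 π; y2 0, y2 π] ≠ 0) ∧
    ∃ f ∈ Dinf, f ∉ Cl := by
  have hpi := Real.pi_gt_three
  have hpi4 := Real.pi_lt_d2
  refine ⟨Om_open, Om_convex, mem_Om (by simp) (by simp) (by simp [Real.pi_pos.le]),
    mem_Om (by simp) (by simp [Real.pi_pos.le]) (by simp),
    ⟨0, fun _ => 1, fun z => z, by fun_prop, by fun_prop, fun z _ => by simp [ell], rfl, by simp,
      rfl, by simp, by simp [Matrix.det_fin_two]⟩, ?_⟩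
  obtain ⟨p, hp⟩ : ∃ p : ℂ, p = ⟨3 * π / 2, 2⟩ := ⟨_, rfl⟩
  have hne : ∀ z ∈ Om, cos z - cos p ≠ 0 := by
    rintro z ⟨h1, h2⟩ h
    obtain ⟨k, hk | hk⟩ := cos_eq_cos_iff.1 (sub_eq_zero.1 h)
    · have a := congrArg re hk
      have b := congrArg im hk
      simp [hp] at a b
      rw [← b, abs_lt] at h2
      rcases le_or_gt k 0 with c | c
      · have : (k : ℝ) ≤ 0 := by exact_mod_cast c
        nlinarith [h2.2]
      · have : (1 : ℝ) ≤ k := by exact_mod_cast c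
        nlinarith [h2.1]
    · have b := congrArg im hk
      simp [hp] at b
      linarith
  have hsp : sin p ≠ 0 := by
    intro h
    obtain ⟨k, hk⟩ := sin_eq_zero_iff.1 h
    have b := congrArg im hk
    simp [hp] at b
  refine ⟨fun z => sin z / (cos z - cos p), ⟨DifferentiableOn.div (by fun_prop) (by fun_prop) hne,
    fun q => ⟨l2_odd 0 q _ fun z => by simp [neg_div], l2_odd π q _ fun z => by
      simp only [sin_two_pi_sub, cos_two_pi_sub, neg_div]⟩⟩, fun hcl => ?_⟩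
  let K : Set ℂ := Icc 0 π ×ℂ Icc 0 12 ∪ Icc π (2 * π) ×ℂ Icc 12 12
  have hK : IsCompact K := (isCompact_Icc.reProdIm isCompact_Icc).union
    (isCompact_Icc.reProdIm isCompact_Icc)
  have hKO : K ⊆ Om := by
    rintro z (⟨h1, h2⟩ | ⟨h1, h2⟩)
    · exact mem_Om h2.1 h1.1 h1.2
    · have a := h1.1
      have b := h1.2
      have c := h2.1
      exact ⟨by linarith, abs_lt.2 ⟨by linarith, by linarith⟩⟩
  obtain ⟨M, hM⟩ := hK.exists_bound_of_continuousOn (f := fun z => cos z - cos p) (by fun_prop)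
  have hM0 : 0 < |M| + 1 := by positivity
  have hs0 : 0 < ‖sin p‖ := norm_pos_iff.2 hsp
  obtain ⟨g, hg, hε⟩ := hcl.2 K hKO hK (‖sin p‖ / 2 / (|M| + 1)) (by positivity)
  obtain ⟨F, hF, e, o1, o2⟩ := good g hg
  let R : ℂ → ℂ := fun z => sin z - F z * (cos z - cos p)
  have r1 : ∀ z ∈ K, ‖R z‖ ≤ ‖sin p‖ / 2 := by
    intro z hz
    have : R z = (sin z / (cos z - cos p) - g z) * (cos z - cos p) := by
      simp only [R]; rw [e (hKO hz), sub_mul, div_mul_cancel₀ _ (hne z (hKO hz))]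
    rw [this, norm_mul]
    calc _ ≤ ‖sin p‖ / 2 / (|M| + 1) * (|M| + 1) :=
          mul_le_mul (hε z hz).le (by linarith [hM z hz, le_abs_self M]) (norm_nonneg _)
            (by positivity)
      _ = _ := by field_simp
  have r2 : ∀ z, R (2 * π - z) = -R z := fun z => by
    simp only [R, sin_two_pi_sub, cos_two_pi_sub, o2]; ring
  have r3 : ∀ z, R (2 * 0 - z) = -R z := fun z => by
    simp only [R, o1]; simp; ring
  have := norm_le_of_forall_mem_frontier_norm_le (f := R) (U := Ioo π (2 * π) ×ℂ Ioo 0 12)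
    ((Metric.isBounded_Ioo _ _).reProdIm (Metric.isBounded_Ioo _ _))
    (Differentiable.diffContOnCl (by simp only [R]; fun_prop)) (C := ‖sin p‖ / 2) (by
      intro w hw
      rw [frontier_reProdIm, closure_Ioo (by linarith), frontier_Ioo (by norm_num),
        closure_Ioo (by norm_num), frontier_Ioo (by linarith)] at hw
      rcases hw with ⟨h1, h2 | h2⟩ | ⟨h1 | h1, h2⟩
      · rw [← norm_neg, ← r2]
        have h2' : w.im = 0 := h2
        refine r1 _ (Or.inl ⟨⟨?_, ?_⟩, ⟨?_, ?_⟩⟩) <;> simp [h2'] <;> linarith [h1.1, h1.2]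
      · have h2' : w.im = 12 := h2
        exact r1 _ (Or.inr ⟨h1, h2'.ge, h2'.le⟩)
      · have h1' : w.re = π := h1
        exact r1 _ (Or.inl ⟨⟨by linarith, h1'.le⟩, h2⟩)
      · have h1' : w.re = 2 * π := h1
        rw [← norm_neg, ← r2, ← norm_neg, ← r3]
        refine r1 _ (Or.inl ⟨⟨?_, ?_⟩, ⟨?_, ?_⟩⟩) <;> simp [h1'] <;> linarith [h2.1, h2.2])
    (z := p) (subset_closure (by
      rw [hp]; refine ⟨⟨?_, ?_⟩, ⟨?_, ?_⟩⟩ <;> simp only <;> linarith))
  simp only [R, sub_self, mul_zero, sub_zero] at this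
  linarith

end Pool.Agent.Results.MP_f3b8e9_an.NotComplete
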